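import Pool.Agent.Q293.HF.Stm

/-! # Job HF-FA -/

set_option autoImplicit false

open Topology Filter
open scoped LinearAlgebra.Projectivization

namespace Pool.Agent.Q210.HF.FA

open Pool.Agent.Q293.HF Pool.Agent.Helper922.HB

theorem om3 : om ^ 3 = 1 := by
  unfold om
  rw [← Complex.exp_nat_mul]
  have : ((3 : ℕ) : ℂ) * (2 * Real.pi * Complex.I / 3) = 2 * Real.pi * Complex.I := by
    push_cast; ring
  rw [this, Complex.exp_two_pi_mul_I]

theorem ze2 : ze ^ 2 = om := by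
  unfold ze om
  rw [← Complex.exp_nat_mul]
  congr 1
  push_cast; ring

theorem ze3 : ze ^ 3 = -1 := by
  unfold ze
  rw [← Complex.exp_nat_mul]
  have : ((3 : ℕ) : ℂ) * (Real.pi * Complex.I / 3) = Real.pi * Complex.I := by
    push_cast; ring
  rw [this, Complex.exp_pi_mul_I]

theorem ze_inv : ze⁻¹ = -om := by
  have h : ze * (-om) = 1 := by
    rw [← ze2]
    have : ze * -ze ^ 2 = -(ze ^ 3) := by ring
    rw [this, ze3]; ring
  exact inv_eq_of_mul_eq_one_right h

/-- powers of a homeomorphism from the one-step rule -/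
theorem zpow_rule {E : Type} [TopologicalSpace E] (g : E ≃ₜ E) (F : ℤ → E → E) (hF0 : ∀ e, F 0 e = e)
    (hF : ∀ k e, g (F k e) = F (k + 1) e) (k : ℤ) : ∀ e, (g ^ k) e = F k e := by
  induction k using Int.induction_on with
  | zero => intro e; rw [zpow_zero, hF0]; rfl
  | succ i ih =>
    intro e
    rw [← hF, ← ih e, add_comm, zpow_add, zpow_one]
    rfl
  | pred i ih =>
    intro e
    apply g.injective
    have h1 : g ((g ^ (-(i : ℤ) - 1)) e) = (g ^ (-(i : ℤ))) e := by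
      have : g ^ (-(i : ℤ)) = g * g ^ (-(i : ℤ) - 1) := by
        rw [← zpow_one_add]; congr 1; ring
      rw [this]; rfl
    rw [h1, ih e, hF]
    congr 1; ring

theorem vne (x y : ℂ) : (![1, x, y] : Fin 3 → ℂ) ≠ 0 := fun h0 => one_ne_zero (congrFun h0 0)

theorem fa (h0 : S_INJ) : S_FA := by
  intro n φ h
  constructor
  · rintro ⟨z, x, y⟩
    apply Subtype.ext
    refine Prod.ext ?_ ?_
    · show (-y) ^ 2 - (om * x) ^ 3 = y ^ 2 - x ^ 3
      rw [mul_pow, om3]; ring
    · refine (Projectivization.mk_eq_mk_iff' ℂ _ _ _ _).2 ?_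
      show ∃ a : ℂ, a • Ph φ z.1 ![1, x, y] = Ph φ (z.1 / 2) ![1, om * x, -y]
      obtain ⟨l, hl, hl2⟩ := (h0 n φ h z.1 (z.1 / 2) ![1, x, y] ![1, om * x, -y] z.2
        (div_ne_zero z.2 two_ne_zero) (vne _ _) (vne _ _)).2 ⟨1, 1, one_ne_zero, by simp, by
          intro i; fin_cases i <;> simp [aa]⟩
      exact ⟨l, hl2.symm⟩
  · rintro ⟨z, x, y⟩ ⟨z', x', y'⟩ hee
    have h1 : Projectivization.mk ℂ (Ph φ z'.1 ![1, x', y']) (Ph_ne h z'.2 (vne _ _)) =
        Projectivization.mk ℂ (Ph φ z.1 ![1, x, y]) (Ph_ne h z.2 (vne _ _)) :=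
      (congrArg (fun q : XX φ => (q : ℂ × ℙ ℂ (Fin 3 × Fin n → ℂ)).2) hee).symm
    rw [Projectivization.mk_eq_mk_iff'] at h1
    obtain ⟨a, ha⟩ := h1
    have ha0 : a ≠ 0 := by
      rintro rfl
      rw [zero_smul] at ha
      exact Ph_ne h z'.2 (vne x' y') ha.symm
    obtain ⟨k, l, hl, hz, hX⟩ := (h0 n φ h z.1 z'.1 ![1, x, y] ![1, x', y'] z.2 z'.2 (vne _ _) (vne _ _)).1
      ⟨a, ha0, ha.symm⟩
    have hl1 : l = 1 := by
      have := hX 0
      simp [aa] at this
      exact this.symm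
    have hx : x' = om ^ k * x := by
      have := hX 1
      simp [aa, hl1] at this
      exact this
    have hy : y' = (-1) ^ k * y := by
      have := hX 2
      simp [aa, hl1] at this
      exact this
    refine ⟨k, ?_⟩
    rw [zpow_rule gA (fun k e => (⟨e.1.1 / 2 ^ k, div_ne_zero e.1.2 (zpow_ne_zero _ two_ne_zero)⟩,
      (om ^ k * e.2.1, (-1) ^ k * e.2.2))) ?_ ?_ k]
    · refine Prod.ext ?_ (Prod.ext ?_ ?_)
      · exact Subtype.ext hz.symm
      · exact hx.symm
      · exact hy.symm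
    · rintro ⟨z, x, y⟩
      refine Prod.ext ?_ (Prod.ext ?_ ?_)
      · exact Subtype.ext (by simp)
      · simp
      · simp
    · rintro k ⟨z, x, y⟩
      refine Prod.ext ?_ (Prod.ext ?_ ?_)
      · refine Subtype.ext ?_
        show z.1 / 2 ^ k / 2 = z.1 / 2 ^ (k + 1)
        rw [zpow_add_one₀ two_ne_zero, div_div]
      · show om * (om ^ k * x) = om ^ (k + 1) * x
        rw [zpow_add_one₀ om_ne]; ring
      · show -((-1) ^ k * y) = (-1) ^ (k + 1) * y
        rw [zpow_add_one₀ (by norm_num : (-1 : ℂ) ≠ 0)]; ring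

end Pool.Agent.Q210.HF.FA
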