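import Pool.Agent.Q210.HF.FA

/-! # Job HF-FI -/

set_option autoImplicit false

open Topology Filter
open scoped LinearAlgebra.Projectivization

namespace Pool.Agent.Q210.HF.FI

open Pool.Agent.Q293.HF Pool.Agent.Helper922.HB Pool.Agent.Q210.HF.FA

theorem fi (h0 : S_INJ) : S_FI := by
  intro n φ h
  have ze6 : ze ^ 6 = 1 := by
    have : ze ^ 6 = (ze ^ 3) ^ 2 := by ring
    rw [this, ze3]; norm_num
  constructor
  · rintro ⟨z, ⟨⟨t, w⟩, hw⟩⟩
    apply Subtype.ext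
    refine Prod.ext rfl ?_
    refine (Projectivization.mk_eq_mk_iff' ℂ _ _ _ _).2 ?_
    show ∃ a : ℂ, a • Ph φ z.1 (vecI t w) = Ph φ (z.1 / 2) (vecI t (ze⁻¹ * w))
    have hv : vecI t (ze⁻¹ * w) ≠ 0 := vecI_ne (rotI ⟨(t, w), hw⟩)
    obtain ⟨l, hl, hl2⟩ := (h0 n φ h z.1 (z.1 / 2) (vecI t w) (vecI t (ze⁻¹ * w)) z.2
      (div_ne_zero z.2 two_ne_zero) (vecI_ne ⟨(t, w), hw⟩) hv).2 ⟨1, -1, by norm_num, by simp, by
        intro i
        fin_cases i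
        · show (ze⁻¹ * w) ^ 3 = -1 * (1 ^ (1 : ℤ) * w ^ 3)
          rw [mul_pow, inv_pow, ze3]
          norm_num
        · show ze⁻¹ * w = -1 * (om ^ (1 : ℤ) * w)
          rw [ze_inv, zpow_one]; ring
        · show (1 + t * (ze⁻¹ * w) ^ 6) ^ (1 / 2 : ℂ) = -1 * ((-1) ^ (1 : ℤ) * (1 + t * w ^ 6) ^ (1 / 2 : ℂ))
          rw [mul_pow, inv_pow, ze6, zpow_one, inv_one, one_mul]
          ring⟩
    exact ⟨l, hl2.symm⟩
  · rintro ⟨z, ⟨⟨t, w⟩, hw⟩⟩ ⟨z', ⟨⟨t', w'⟩, hw'⟩⟩ hee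
    have ht : t = t' := congrArg (fun q : XX φ => (q : ℂ × ℙ ℂ (Fin 3 × Fin n → ℂ)).1) hee
    subst ht
    have h1 : Projectivization.mk ℂ (Ph φ z'.1 (vecI t w')) (Ph_ne h z'.2 (vecI_ne ⟨(t, w'), hw'⟩)) =
        Projectivization.mk ℂ (Ph φ z.1 (vecI t w)) (Ph_ne h z.2 (vecI_ne ⟨(t, w), hw⟩)) :=
      (congrArg (fun q : XX φ => (q : ℂ × ℙ ℂ (Fin 3 × Fin n → ℂ)).2) hee).symm
    rw [Projectivization.mk_eq_mk_iff'] at h1
    obtain ⟨a, ha⟩ := h1
    have ha0 : a ≠ 0 := by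
      rintro rfl
      rw [zero_smul] at ha
      exact Ph_ne h z'.2 (vecI_ne ⟨(t, w'), hw'⟩) ha.symm
    obtain ⟨k, l, hl, hz, hX⟩ := (h0 n φ h z.1 z'.1 (vecI t w) (vecI t w') z.2 z'.2
      (vecI_ne ⟨(t, w), hw⟩) (vecI_ne ⟨(t, w'), hw'⟩)).1 ⟨a, ha0, ha.symm⟩
    have e0 : w' ^ 3 = l * w ^ 3 := by
      have := hX 0
      simpa [aa, vecI] using this
    have e1 : w' = l * (om ^ k * w) := by
      have := hX 1
      simpa [aa, vecI] using this
    have e2 : (1 + t * w' ^ 6) ^ (1 / 2 : ℂ) = l * ((-1) ^ k * (1 + t * w ^ 6) ^ (1 / 2 : ℂ)) := hX 2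
    have omk3 : (om ^ k) ^ 3 = 1 := by
      rw [← zpow_natCast, ← zpow_mul, mul_comm, zpow_mul]
      have : om ^ ((3 : ℕ) : ℤ) = 1 := by rw [zpow_natCast, om3]
      rw [this, one_zpow]
    have key : w' = ze⁻¹ ^ k * w := by
      by_cases hw0 : w = 0
      · rw [e1, hw0]; simp
      · have e3 : l ^ 3 * w ^ 3 = l * w ^ 3 := by
          rw [← e0, e1, mul_pow, mul_pow, omk3]; ring
        have e4 : l ^ 3 = l := mul_right_cancel₀ (pow_ne_zero 3 hw0) e3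
        have e5 : l ^ 2 = 1 := by
          apply mul_left_cancel₀ hl
          calc l * l ^ 2 = l ^ 3 := by ring
            _ = l * 1 := by rw [e4, mul_one]
        have e6 : w' ^ 6 = w ^ 6 := by
          have : w' ^ 6 = (w' ^ 3) ^ 2 := by ring
          rw [this, e0, mul_pow, e5]; ring
        rw [e6] at e2
        have hs : (1 + t * w ^ 6) ^ (1 / 2 : ℂ) ≠ 0 := by
          intro hc
          have h2 := sq_ne ⟨(t, w), hw⟩
          have h2' : ((1 + t * w ^ 6) ^ (1 / 2 : ℂ)) ^ 2 = 1 + t * w ^ 6 := h2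
          rw [hc] at h2'
          have h3 : t * w ^ 6 = -1 := by linear_combination -h2'
          have h4 : ‖t * w ^ 6‖ < 1 / 2 := hw
          rw [h3] at h4
          norm_num at h4
        have e7 : l * (-1) ^ k = 1 := by
          apply mul_right_cancel₀ hs
          rw [one_mul, mul_assoc]
          exact e2.symm
        have e8 : l = (-1) ^ k := by
          have h9 : ((-1 : ℂ) ^ k) * (-1) ^ k = 1 := by
            rw [← mul_zpow]; norm_num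
          calc l = l * (((-1 : ℂ) ^ k) * (-1) ^ k) := by rw [h9, mul_one]
            _ = (l * (-1) ^ k) * (-1) ^ k := by ring
            _ = (-1) ^ k := by rw [e7, one_mul]
        rw [e1, e8, ze_inv, ← mul_assoc, ← mul_zpow]
        congr 2
        ring
    refine ⟨k, ?_⟩
    have nrm : ∀ (k : ℤ) (w : ℂ), (ze⁻¹ ^ k * w) ^ 6 = w ^ 6 := by
      intro k w
      have : (ze⁻¹ ^ k) ^ 6 = 1 := by
        rw [← zpow_natCast, ← zpow_mul, mul_comm, zpow_mul]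
        have : ze⁻¹ ^ ((6 : ℕ) : ℤ) = 1 := by rw [zpow_natCast, inv_pow, ze6, inv_one]
        rw [this, one_zpow]
      rw [mul_pow, this, one_mul]
    rw [zpow_rule gI (fun k e => (⟨e.1.1 / 2 ^ k, div_ne_zero e.1.2 (zpow_ne_zero _ two_ne_zero)⟩,
      ⟨(e.2.1.1, ze⁻¹ ^ k * e.2.1.2), by
        have := e.2.2
        show ‖e.2.1.1 * (ze⁻¹ ^ k * e.2.1.2) ^ 6‖ < 1 / 2
        rw [nrm]; exact this⟩)) ?_ ?_ k]
    · refine Prod.ext ?_ (Subtype.ext (Prod.ext rfl ?_))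
      · exact Subtype.ext hz.symm
      · exact key.symm
    · rintro ⟨z, ⟨⟨t, w⟩, hw⟩⟩
      refine Prod.ext ?_ (Subtype.ext (Prod.ext rfl ?_))
      · exact Subtype.ext (by simp)
      · simp
    · rintro k ⟨z, ⟨⟨t, w⟩, hw⟩⟩
      refine Prod.ext ?_ (Subtype.ext (Prod.ext rfl ?_))
      · refine Subtype.ext ?_
        show z.1 / 2 ^ k / 2 = z.1 / 2 ^ (k + 1)
        rw [zpow_add_one₀ two_ne_zero, div_div]
      · show ze⁻¹ * (ze⁻¹ ^ k * w) = ze⁻¹ ^ (k + 1) * w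
        rw [zpow_add_one₀ (inv_ne_zero ze_ne)]; ring

end Pool.Agent.Q210.HF.FI
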